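import Pool.Agent.Run7.h677.EU.Main

/-!
# Einstein six-manifolds with sectional curvature away from zero

At a point of a Riemannian six-manifold where the Ricci tensor is `-5 κ` times the metric (`κ > 0`)
and all sectional curvatures are at most `-κ / 3` (no lower bound is assumed), the
Gauss-Bonnet-Chern integrand is at most `-4 / 135` times the absolute value of its value for constant
curvature `-κ`. So a closed Einstein six-manifold with `Ric = -5 κ g` and `K ≤ -κ / 3` has negative
Euler characteristic. If `K ≤ -c κ` with `c ≥ 3 / 4`, the integrand is at most its value for constant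
curvature, with an explicit gain of a multiple of the squared norm of the Weyl tensor: so
`|χ(M)|` is at least the value given by the volume for hyperbolic manifolds. The mirrored statements
hold for `Ric = 5 κ` and `K ≥ κ / 3`, `K ≥ c κ`.

The proof (see `Pool/Agent/Run7/h677/EU/`) uses the quadrature on the sphere, the averages and the
inequality for the Weyl part of `Pool/Agent/H933R2/Hopf/`, and `Pool/Agent/W714/` (developments of the
starting repository). New are the combination with the Weyl part for a bound away from zero, the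
finite inequalities and the upper bound for `∑ λ_a λ_b K_ab`.
-/

namespace Pool.Agent.Results.MP_ebfab8_gt.AwayFromZeroDimSix

open Hopf6 MeasureTheory Pool.Agent.W714.HE Pool.Agent.W714.ES Run7.h677.EU

/-- Einstein curvature tensors in dimension six with sectional curvature bounded away from zero. -/
theorem result :
    -- the pointwise bounds, `K ≥ κ / 3` or `K ≤ - κ / 3`
    (∀ (V : Type) [NormedAddCommGroup V] [InnerProductSpace ℝ V]
      (e : OrthonormalBasis (Fin 6) ℝ V) (R : V → V → V → V → ℝ), AlgCurv R →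
      ∀ κ : ℝ, 0 < κ →
        (Einstein e R κ → SecGE R (κ / 3) → 4 / 135 * roundGB κ ≤ Hopf6.gbc e R) ∧
        (Einstein e R (-κ) → SecLE R (-(κ / 3)) → Hopf6.gbc e R ≤ -(4 / 135 * roundGB κ))) ∧
    -- the sharp pointwise bounds, `K ≥ c κ` or `K ≤ - c κ` with `c ≥ 3 / 4`
    (∀ (V : Type) [NormedAddCommGroup V] [InnerProductSpace ℝ V]
      (e : OrthonormalBasis (Fin 6) ℝ V) (R : V → V → V → V → ℝ), AlgCurv R →
      ∀ κ c : ℝ, 0 < κ → 3 / 4 ≤ c →
        (Einstein e R κ → SecGE R (c * κ) →
          0 ≤ (4 * c - 3) * devSq e κ R / (120 * κ ^ 2) ∧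
          (1 + (4 * c - 3) * devSq e κ R / (120 * κ ^ 2)) * roundGB κ ≤ Hopf6.gbc e R) ∧
        (Einstein e R (-κ) → SecLE R (-(c * κ)) →
          0 ≤ (4 * c - 3) * devSq e (-κ) R / (120 * κ ^ 2) ∧
          Hopf6.gbc e R ≤
            -((1 + (4 * c - 3) * devSq e (-κ) R / (120 * κ ^ 2)) * roundGB κ))) ∧
    -- the integrals
    (∀ (M : Type) [MeasurableSpace M] (μ : Measure M) (K : CurvField M) (κ : ℝ), μ ≠ 0 → 0 < κ →
      Integrable K.gbc μ →
        ((∀ p, Einstein (K.e p) (K.R p) κ ∧ SecGE (K.R p) (κ / 3)) → 0 < ∫ p, K.gbc p ∂μ) ∧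
        ((∀ p, Einstein (K.e p) (K.R p) (-κ) ∧ SecLE (K.R p) (-(κ / 3))) →
          ∫ p, K.gbc p ∂μ < 0)) ∧
    (∀ (M : Type) [MeasurableSpace M] (μ : Measure M) [IsFiniteMeasure μ] (K : CurvField M)
      (κ : ℝ), 0 < κ → Integrable K.gbc μ →
        ((∀ p, Einstein (K.e p) (K.R p) κ ∧ SecGE (K.R p) (3 / 4 * κ)) →
          μ.real Set.univ * roundGB κ ≤ ∫ p, K.gbc p ∂μ) ∧
        ((∀ p, Einstein (K.e p) (K.R p) (-κ) ∧ SecLE (K.R p) (-(3 / 4 * κ))) →
          ∫ p, K.gbc p ∂μ ≤ -(μ.real Set.univ * roundGB κ))) := by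
  have hpos : ∀ (M : Type) [MeasurableSpace M] (μ : Measure M) (f : M → ℝ), μ ≠ 0 →
      Integrable f μ → (∀ p, 0 < f p) → 0 < ∫ p, f p ∂μ := by
    intro M _ μ f hμ hint h
    have h0 : 0 ≤ f := fun p => (h p).le
    rw [integral_pos_iff_support_of_nonneg h0 hint]
    have hs : Function.support f = Set.univ := by
      ext p
      simp only [Function.mem_support, Set.mem_univ, iff_true]
      exact (h p).ne'
    rw [hs]
    exact pos_iff_ne_zero.2 (by simpa using hμ)
  refine ⟨?_, ?_, ?_, ?_⟩
  · intro V _ _ e R hR κ hκ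
    exact ⟨fun hE h => gbc_third e hR hκ hE h, fun hE h => gbc_third_neg e hR hκ hE h⟩
  · intro V _ _ e R hR κ c hκ hc
    have h0 : 0 ≤ 4 * c - 3 := by linarith
    refine ⟨fun hE h => ⟨?_, gbc_sharp e hR hκ hE h⟩, fun hE h => ⟨?_, gbc_sharp_neg e hR hκ hE h⟩⟩
    · have := devSq_nonneg e κ R
      positivity
    · have := devSq_nonneg e (-κ) R
      positivity
  · intro M _ μ K κ hμ hκ hint
    have hr := roundGB_pos hκ
    have hb : 0 < 4 / 135 * roundGB κ := by positivity
    constructor
    · intro h
      refine hpos M μ _ hμ hint fun p => ?_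
      exact lt_of_lt_of_le hb (gbc_third (K.e p) (K.curv p) hκ (h p).1 (h p).2)
    · intro h
      have h1 := hpos M μ (fun p => -(K.gbc p)) hμ hint.neg fun p => by
        have h2 : K.gbc p ≤ -(4 / 135 * roundGB κ) :=
          gbc_third_neg (K.e p) (K.curv p) hκ (h p).1 (h p).2
        linarith
      rw [integral_neg] at h1
      linarith
  · intro M _ μ _ K κ hκ hint
    constructor
    · intro h
      have h1 : ∀ p, roundGB κ ≤ K.gbc p := fun p => by
        have h2 := gbc_sharp (c := 3 / 4) (K.e p) (K.curv p) hκ (h p).1 (h p).2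
        have h3 : (4 * (3 / 4 : ℝ) - 3) = 0 := by norm_num
        rw [h3, zero_mul, zero_div, add_zero, one_mul] at h2
        exact h2
      calc μ.real Set.univ * roundGB κ = ∫ _, roundGB κ ∂μ := by
            rw [integral_const, smul_eq_mul]
        _ ≤ ∫ p, K.gbc p ∂μ := integral_mono (integrable_const _) hint h1
    · intro h
      have h1 : ∀ p, K.gbc p ≤ -(roundGB κ) := fun p => by
        have h2 := gbc_sharp_neg (c := 3 / 4) (K.e p) (K.curv p) hκ (h p).1 (h p).2
        have h3 : (4 * (3 / 4 : ℝ) - 3) = 0 := by norm_num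
        rw [h3, zero_mul, zero_div, add_zero, one_mul] at h2
        exact h2
      calc ∫ p, K.gbc p ∂μ ≤ ∫ _, -(roundGB κ) ∂μ := integral_mono hint (integrable_const _) h1
        _ = -(μ.real Set.univ * roundGB κ) := by
          rw [integral_const, smul_eq_mul]
          ring

end Pool.Agent.Results.MP_ebfab8_gt.AwayFromZeroDimSix
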