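import Pool.Agent.Run7.h512.EK.Pos

/-!
# Einstein six-manifolds with four-nonnegative curvature operator

Let `R` be an Einstein curvature tensor on a Euclidean space of dimension six (any Einstein constant)
whose curvature operator is four-nonnegative: the sum of its four smallest eigenvalues is not negative.
Then the Gauss-Bonnet-Chern integrand of `R` is not negative, and it is positive as soon as the
curvature operator has a negative eigenvalue. So a closed six-manifold with negative Euler
characteristic carries no Einstein metric with four-nonnegative curvature operator.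

For six-nonnegative curvature operators the pointwise sign is wrong: there is an Einstein tensor with
Einstein constant `1` (`Ric = 5 g`), with curvature operator of eigenvalues `-25/7`, `5/7` (eight times),
`15/7` (six times), whose integrand is negative; its negative is an Einstein tensor with six-nonpositive
curvature operator and positive integrand.

The proof of the first part: in an orthonormal basis of eigenforms `g_p` of `R`, with eigenvalues
`λ_p`, the first Bianchi identity and the Einstein condition say `∑ λ_p g_p ∧ g_p = 0` and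
`∑ λ_p g_p² = -ρ`. The integrand is the cubic form `∑ λ_p λ_q λ_r (g_p ∧ g_q ∧ g_r)²`; after the shift
of the eigenvalues by the least one it is estimated with the identities that the sums of
`(g_p ∧ g_q ∧ g_r)²` over an orthonormal basis satisfy.
-/

set_option autoImplicit false

namespace Pool.Agent.Results.MP_ebfab8_gt.FourNonnegativeOperator

open MeasureTheory Run7.h512.EK
open Pool.Agent.TH594.HE (Einstein Sk)
open Pool.Agent.W666.GB (AlgCurv gbc CurvField)

/-- Einstein tensors with four-nonnegative curvature operator in dimension six. -/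
theorem result :
    (∀ (V : Type) [NormedAddCommGroup V] [InnerProductSpace ℝ V]
      (e : OrthonormalBasis (Fin 3 × Bool) ℝ V) (R : V → V → V → V → ℝ), AlgCurv R →
      ∀ κ : ℝ, Einstein e R κ → KNonneg 4 e R →
        0 ≤ gbc e R ∧ ((∃ α, Sk α ∧ curvQ e R α < 0) → 0 < gbc e R)) ∧
    (∀ (M : Type) [MeasurableSpace M] (μ : Measure M) (K : CurvField 3 M) (κ : M → ℝ),
      (∀ p, Einstein (K.e p) (K.R p) (κ p) ∧ KNonneg 4 (K.e p) (K.R p)) →
        0 ≤ ∫ p, K.gb p ∂μ ∧
          (Integrable K.gb μ → μ {p | ∃ α, Sk α ∧ curvQ (K.e p) (K.R p) α < 0} ≠ 0 →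
            0 < ∫ p, K.gb p ∂μ)) ∧
    (∃ (e : OrthonormalBasis (Fin 3 × Bool) ℝ (EuclideanSpace ℝ (Fin 6)))
      (R : EuclideanSpace ℝ (Fin 6) → EuclideanSpace ℝ (Fin 6) → EuclideanSpace ℝ (Fin 6) →
        EuclideanSpace ℝ (Fin 6) → ℝ),
      AlgCurv R ∧ Einstein e R 1 ∧ KNonneg 6 e R ∧ gbc e R < 0) ∧
    (∃ (e : OrthonormalBasis (Fin 3 × Bool) ℝ (EuclideanSpace ℝ (Fin 6)))
      (R : EuclideanSpace ℝ (Fin 6) → EuclideanSpace ℝ (Fin 6) → EuclideanSpace ℝ (Fin 6) →
        EuclideanSpace ℝ (Fin 6) → ℝ),
      AlgCurv R ∧ Einstein e R (-1) ∧ KNonpos 6 e R ∧ 0 < gbc e R) := by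
  refine ⟨?_, ?_, ⟨eb, _, ex_curv, ex_Einstein, ex_six, ex_gbc⟩, ⟨eb, _, ex_neg⟩⟩
  · intro V _ _ e R hR κ hE h4
    exact pt_pos e hR hE h4
  · intro M _ μ K κ h
    have hpt := fun p => pt_pos (K.e p) (K.curv p) (h p).1 (h p).2
    constructor
    · exact integral_nonneg fun p => (hpt p).1
    · intro hi hμ
      exact Pool.Agent.TH594.HP.pos_of μ _ (fun p => (hpt p).1) hi _ (fun p hp => (hpt p).2 hp) hμ

end Pool.Agent.Results.MP_ebfab8_gt.FourNonnegativeOperator
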