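import Pool.Agent.Run7.h512.EN.Compact

/-!
# Einstein manifolds with an upper bound of the sectional curvatures, in every dimension

Let `n ≥ 4` and `k(n) = 1 + 11 n / (19 n - 27)`, which is greater than `30 / 19 = 1.57…` for every `n`.
A closed Einstein manifold of dimension `n` with `Ric = (n - 1) κ g`, `κ > 0`, all of whose sectional
curvatures are at most `k(n) κ` (no lower bound is assumed) has constant sectional curvature `κ`. So
a closed `n`-manifold whose universal covering is not a sphere has no such Einstein metric.

The pointwise statement: for an Einstein curvature tensor `R` with these bounds the cubic form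
`2 (n - 1) κ |R|² - R̂ - 4 R̊` of the Bochner-Lichnerowicz formula is at least
`(n - 1) κ / 1500 · |W|²`, where `W = R - κ R₁` is the Weyl tensor.

Proof. The cubic form is the average over the unit sphere of a form `E(x)` in the eigenvalues of
the Jacobi operator of `x` and the sectional curvatures of the planes spanned by its eigenvectors
(the averages are computed with a finite quadrature formula that is exact for sextic forms, in every
dimension). The upper bound and the Einstein condition make `1 + s - K` a symmetric matrix with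
nonnegative entries and prescribed row sums, and `E(x) ≥ 0` follows from a separable dual certificate.
The Bochner-Lichnerowicz formula itself is derived from the second Bianchi identity, the Ricci identity
and the Einstein condition. At a maximum of `|R|²` the second derivatives of `|R|²` along the geodesics
in the directions of an orthonormal basis are not positive, so the Weyl tensor vanishes there, hence
everywhere.
-/

set_option autoImplicit false

namespace Pool.Agent.Results.MP_ebfab8_gt.UpperPinching

open MeasureTheory Run7.h512.EN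

/-- Einstein manifolds of positive scalar curvature with sectional curvatures at most `k(n) κ`. -/
theorem result :
    -- (1) the pointwise inequality
    (∀ (n : ℕ), 4 ≤ n → ∀ (V : Type) [NormedAddCommGroup V] [InnerProductSpace ℝ V]
      (e : OrthonormalBasis (Fin n) ℝ V) (R : V → V → V → V → ℝ), AlgCurv R →
      ∀ κ : ℝ, 0 < κ → Einstein e R κ → SecLE R (kn n * κ) →
        ((n : ℝ) - 1) * κ / 1500 * devSq e R κ ≤ cubic e R κ ∧
          0 ≤ cubic e R κ ∧ (cubic e R κ = 0 → R = rnd κ)) ∧
    -- (2) the Bochner-Lichnerowicz formula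
    (∀ (n : ℕ) (V : Type) [NormedAddCommGroup V] [InnerProductSpace ℝ V]
      (e : OrthonormalBasis (Fin n) ℝ V) (R : V → V → V → V → ℝ), AlgCurv R →
      ∀ κ : ℝ, Einstein e R κ → ∀ T : V → V → V → V → V → V → ℝ, IsSecondDeriv e R T →
        ∑ i, ∑ a, ∑ b, ∑ c, ∑ d,
          T (e i) (e i) (e a) (e b) (e c) (e d) * R (e a) (e b) (e c) (e d) = cubic e R κ) ∧
    -- (3) closed Einstein manifolds
    (∀ (n : ℕ), 4 ≤ n → ∀ (M : Type) [TopologicalSpace M] [CompactSpace M] (K : CurvField n M)
      (κ : ℝ), 0 < κ → (∀ p, Einstein (K.e p) (K.R p) κ ∧ SecLE (K.R p) (kn n * κ)) →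
        Continuous K.nrm → ∀ γ : M → Fin n → ℝ → M, K.IsGeodesicFrame γ →
          ∀ p, K.R p = rnd κ) ∧
    -- (4) integrated version, almost everywhere
    (∀ (n : ℕ), 4 ≤ n → ∀ (M : Type) [MeasurableSpace M] (μ : Measure M) (K : CurvField n M)
      (κ : ℝ), 0 < κ → (∀ p, Einstein (K.e p) (K.R p) κ ∧ SecLE (K.R p) (kn n * κ)) →
        Integrable K.halfLap μ → ∫ p, K.halfLap p ∂μ ≤ 0 →
          ∀ᵐ p ∂μ, K.R p = rnd κ ∧ K.gradSq p = 0) ∧
    -- the constant
    (∀ n : ℕ, 4 ≤ n → 30 / 19 < kn n) := by
  refine ⟨?_, ?_, ?_, ?_, kn_gt⟩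
  · intro n hn V _ _ e R hR κ hκ hE h
    have h1 := cubic_ge e hn hR hκ hE h
    have h3 : 0 ≤ devSq e R κ := normSq_nonneg _ _
    have hn' : (4 : ℝ) ≤ n := by exact_mod_cast hn
    have h4 : 0 < ((n : ℝ) - 1) * κ / 1500 := by
      have : 0 < (n : ℝ) - 1 := by linarith
      positivity
    have h5 := mul_nonneg h4.le h3
    refine ⟨h1, by linarith, fun h0 => ?_⟩
    have h6 : ((n : ℝ) - 1) * κ / 1500 * devSq e R κ = 0 := by linarith
    rcases mul_eq_zero.1 h6 with h8 | h8
    · exact absurd h8 h4.ne'
    · exact eq_rnd_of_dev e hR h8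
  · intro n V _ _ e R hR κ hE T hT
    exact bochner_formula e hR hE hT
  · intro n hn M _ _ K κ hκ h hc γ hγ p
    exact K.compact_round hn hκ (fun p => (h p).1) (fun p => (h p).2) hc hγ p
  · intro n hn M _ μ K κ hκ h hi h0
    exact K.ae_round μ hn hκ (fun p => (h p).1) (fun p => (h p).2) hi h0

end Pool.Agent.Results.MP_ebfab8_gt.UpperPinching
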